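import Pool.Agent.W325.S3.Step4
import Pool.Agent.W320.S3.Fast
import Pool.Agent.W320.S3.Ext
import Pool.Agent.W287.S3.Blk1
import Pool.Agent.W924.S3.BLK2
import Pool.Agent.W38.S3.Lad
import Pool.Agent.W216.S3.Leg
import Pool.Agent.W216.S3.Avg
import Pool.Agent.W214.S3.App
import Pool.Agent.W135.S3.Stair
import Pool.Agent.W924.S3.COUNT
import Pool.Agent.W74.S3.Hle
import Pool.Agent.W85.S3.Iter
import Pool.Agent.H46R2.K3.FIN

/-! Assembly: `c_n ≤ μ^n exp(K n^(1/3+ε))` on `ℤ³`. -/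

namespace Pool.Agent.W325.S3

open Pool.Agent.H46R2.K3

theorem lad_all : S_LAD :=
  W38.S3.lad W320.S3.Fast.fast W320.S3.ext (W287.S3.Blk1.blk1 W320.S3.ext) W924.S3.blk2

theorem stair_all : S_STAIR := W135.S3.Stair.stair W216.S3.leg W214.S3.legm W214.S3.app

theorem hle_all : S_HLE := W74.S3.Hle.hle_bd stair_all W216.S3.Av.avg W924.S3.count

theorem half : PP (1 / 2) := by
  obtain ⟨K, hK⟩ := Pool.Agent.H46R2.K3.P.c_final (1 / 8) (by norm_num)
  refine ⟨K, fun n => ?_⟩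
  have := hK n
  norm_num at this ⊢
  exact this

theorem c_third (ε : ℝ) (hε : 0 < ε) : PP (1 / 3 + ε) :=
  W85.S3.iter (step lad_all hle_all) half ε hε

end Pool.Agent.W325.S3
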