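import Pool.Agent.W325.S3.Stm

/-! Numerical lemmas for the step of the bootstrap. -/

namespace Pool.Agent.W325.S3

open Finset Pool.Agent.H46R2.K3

/-- constants are absorbed -/
theorem st_exp {Q : ℕ} (hQ : 2 ≤ Q) (D : ℝ) (hD : 1 ≤ D) (a : ℕ) :
    D * (Q : ℝ) ^ a ≤ Real.exp ((Real.log D + a) * Q) := by
  have h1 : (1 : ℝ) ≤ Q := by exact_mod_cast (by omega : 1 ≤ Q)
  have hQ0 : (0 : ℝ) < Q := by linarith
  have hl : Real.log Q ≤ Q := (Real.log_le_sub_one_of_pos hQ0).trans (by linarith)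
  have hl0 : 0 ≤ Real.log Q := Real.log_nonneg h1
  have e : D * (Q : ℝ) ^ a = Real.exp (Real.log D + a * Real.log Q) := by
    rw [Real.exp_add, Real.exp_log (by linarith), mul_comm (a : ℝ), Real.exp_mul,
      Real.exp_log hQ0, Real.rpow_natCast]
  rw [e]
  apply Real.exp_le_exp.2
  have hlD : 0 ≤ Real.log D := Real.log_nonneg hD
  have ha : (0 : ℝ) ≤ a := Nat.cast_nonneg a
  nlinarith

theorem st_base {s x : ℝ} (hs : 1 ≤ s) (hx : 1 / 3 ≤ x) :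
    12 * (s + 1) ^ 2 ≤ Real.exp (20 * s ^ x) ∧ (2 * s + 1) ^ 3 ≤ Real.exp (20 * s ^ x) := by
  obtain ⟨u, hu⟩ : ∃ u : ℝ, u = s ^ (1 / 3 : ℝ) := ⟨_, rfl⟩
  have hu1 : 1 ≤ u := by rw [hu]; exact Real.one_le_rpow hs (by norm_num)
  have hu0 : 0 ≤ u := by linarith
  have hsu : s = u ^ 3 := by
    rw [hu, ← Real.rpow_natCast, ← Real.rpow_mul (by linarith)]
    norm_num
  have hux : u ≤ s ^ x := by rw [hu]; exact Real.rpow_le_rpow_of_exponent_le hs hx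
  have hue : u ≤ Real.exp u := by linarith [Real.add_one_le_exp u]
  have h6 : u ^ 6 ≤ Real.exp (6 * u) := by
    calc u ^ 6 ≤ (Real.exp u) ^ 6 := pow_le_pow_left₀ hu0 hue 6
      _ = Real.exp (6 * u) := by rw [← Real.exp_nat_mul]; norm_num
  have h9 : u ^ 9 ≤ Real.exp (9 * u) := by
    calc u ^ 9 ≤ (Real.exp u) ^ 9 := pow_le_pow_left₀ hu0 hue 9
      _ = Real.exp (9 * u) := by rw [← Real.exp_nat_mul]; norm_num
  have h14 : (48 : ℝ) ≤ Real.exp (14 * u) := by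
    have := Real.quadratic_le_exp_of_nonneg (show 0 ≤ 14 * u by linarith)
    nlinarith
  have h11 : (27 : ℝ) ≤ Real.exp (11 * u) := by
    have := Real.quadratic_le_exp_of_nonneg (show 0 ≤ 11 * u by linarith)
    nlinarith
  have hu3 : 1 ≤ u ^ 3 := one_le_pow₀ hu1
  have hfin : Real.exp (20 * u) ≤ Real.exp (20 * s ^ x) := Real.exp_le_exp.2 (by linarith)
  constructor
  · refine le_trans ?_ hfin
    calc 12 * (s + 1) ^ 2 = 12 * (u ^ 3 + 1) ^ 2 := by rw [hsu]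
      _ ≤ 12 * (u ^ 3 + u ^ 3) ^ 2 := by gcongr
      _ = 48 * u ^ 6 := by ring
      _ ≤ Real.exp (14 * u) * Real.exp (6 * u) := by gcongr
      _ = Real.exp (20 * u) := by rw [← Real.exp_add]; ring_nf
  · refine le_trans ?_ hfin
    calc (2 * s + 1) ^ 3 = (2 * u ^ 3 + 1) ^ 3 := by rw [hsu]
      _ ≤ (2 * u ^ 3 + u ^ 3) ^ 3 := by gcongr
      _ = 27 * u ^ 9 := by ring
      _ ≤ Real.exp (11 * u) * Real.exp (9 * u) := by gcongr
      _ = Real.exp (20 * u) := by rw [← Real.exp_add]; ring_nf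

/-- the scale function `(Q^l)^x` -/
noncomputable def tl (Q : ℕ) (x : ℝ) (l : ℕ) : ℝ := ((Q : ℝ) ^ l) ^ x

theorem tl_one_le {Q : ℕ} (hQ : 2 ≤ Q) {x : ℝ} (hx : 0 ≤ x) (l : ℕ) : 1 ≤ tl Q x l := by
  have h1 : (1 : ℝ) ≤ Q := by exact_mod_cast (by omega : 1 ≤ Q)
  exact Real.one_le_rpow (one_le_pow₀ h1) hx

theorem tl_mono {Q : ℕ} (hQ : 2 ≤ Q) {x : ℝ} (hx : 0 ≤ x) {l l' : ℕ} (h : l ≤ l') :
    tl Q x l ≤ tl Q x l' := by
  have h1 : (1 : ℝ) ≤ Q := by exact_mod_cast (by omega : 1 ≤ Q)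
  exact Real.rpow_le_rpow (by positivity) (pow_le_pow_right₀ h1 h) hx

theorem tl_succ {Q : ℕ} (hQ : 2 ≤ Q) {x : ℝ} (hx : x ≤ 1) (l : ℕ) :
    tl Q x (l + 1) ≤ Q * tl Q x l := by
  have h1 : (1 : ℝ) ≤ Q := by exact_mod_cast (by omega : 1 ≤ Q)
  have h0 : (0 : ℝ) ≤ Q := by linarith
  unfold tl
  rw [pow_succ, Real.mul_rpow (by positivity) h0, mul_comm]
  apply mul_le_mul_of_nonneg_right _ (by positivity)
  calc (Q : ℝ) ^ x ≤ (Q : ℝ) ^ (1 : ℝ) := Real.rpow_le_rpow_of_exponent_le h1 hx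
    _ = Q := Real.rpow_one _

theorem tl_top {Q : ℕ} (hQ : 2 ≤ Q) {x : ℝ} {M y l : ℕ} (hy : y ≤ M) (hl : l ≤ M - y)
    (hx : 1 / 3 ≤ x) (h : 3 * x * M ≤ (2 + 3 * x) * y) : tl Q x l ≤ (Q : ℝ) ^ y := by
  have h1 : (1 : ℝ) ≤ Q := by exact_mod_cast (by omega : 1 ≤ Q)
  have h0 : (0 : ℝ) ≤ Q := by linarith
  unfold tl
  rw [← Real.rpow_natCast, ← Real.rpow_natCast, ← Real.rpow_mul h0]
  apply Real.rpow_le_rpow_of_exponent_le h1
  have e : (l : ℝ) ≤ M - y := by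
    have : ((l : ℕ) : ℝ) ≤ ((M - y : ℕ) : ℝ) := by exact_mod_cast hl
    rwa [Nat.cast_sub hy] at this
  have hy0 : (0 : ℝ) ≤ y := Nat.cast_nonneg y
  nlinarith

theorem tl_main {Q : ℕ} (hQ : 2 ≤ Q) {x : ℝ} {M y l : ℕ} (hy : y ≤ M) (hl : l ≤ M - y)
    (hx : 1 / 3 ≤ x) (h : 3 * x * M ≤ (2 + 3 * x) * y) :
    (Q : ℝ) ^ (M - l) * tl Q x l ^ 3 ≤ (Q : ℝ) ^ (3 * y) := by
  have h1 : (1 : ℝ) ≤ Q := by exact_mod_cast (by omega : 1 ≤ Q)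
  have h0 : (0 : ℝ) ≤ Q := by linarith
  have hQp : (0 : ℝ) < Q := by linarith
  unfold tl
  have e1 : (((Q : ℝ) ^ l) ^ x) ^ 3 = (Q : ℝ) ^ ((l : ℝ) * x * 3) := by
    rw [← Real.rpow_natCast (Q : ℝ) l, ← Real.rpow_mul h0, ← Real.rpow_natCast _ 3,
      ← Real.rpow_mul h0]
    norm_num
  have hlM : l ≤ M := by omega
  rw [e1, ← Real.rpow_natCast, ← Real.rpow_natCast, ← Real.rpow_add hQp]
  apply Real.rpow_le_rpow_of_exponent_le h1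
  have e : (l : ℝ) ≤ M - y := by
    have : ((l : ℕ) : ℝ) ≤ ((M - y : ℕ) : ℝ) := by exact_mod_cast hl
    rwa [Nat.cast_sub hy] at this
  rw [Nat.cast_sub hlM]
  push_cast
  nlinarith

end Pool.Agent.W325.S3
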