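import Pool.Agent.W325.S3.Step1
import Pool.Agent.H46R2.K3.MU

/-! The parameters of the exit paths. -/

namespace Pool.Agent.W325.S3

open Finset Pool.Agent.H46R2.K3 Pool.Agent.H46R2.K3.P

theorem st_anti {I : ℕ} {r : ℕ → ℝ} (h : ∀ l < I, r (l + 1) ≤ r l) {l i : ℕ} (hli : l ≤ i)
    (hi : i ≤ I) : r i ≤ r l := by
  induction i with
  | zero => have : l = 0 := by omega
            rw [this]
  | succ i ih =>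
    rcases Nat.lt_or_ge l (i + 1) with h1 | h1
    · exact (h i (by omega)).trans (ih (by omega) (by omega))
    · have : l = i + 1 := by omega
      rw [this]

theorem st_floor {z : ℝ} (hz : 1 ≤ z) : 1 ≤ ⌊z⌋₊ ∧ (⌊z⌋₊ : ℝ) ≤ z ∧ z ≤ 2 * (⌊z⌋₊ : ℝ) := by
  have h1 : 1 ≤ ⌊z⌋₊ := Nat.le_floor (by exact_mod_cast hz)
  refine ⟨h1, Nat.floor_le (by linarith), ?_⟩
  have h2 := Nat.lt_floor_add_one z
  have h3 : (1 : ℝ) ≤ (⌊z⌋₊ : ℝ) := by exact_mod_cast h1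
  linarith

/-- the constant -/
def Cst : ℝ := 27648 * 99 ^ 3 * 192 ^ 3

theorem st_far_bge (k E : ℕ) : bge k (E + 1) ≤ far k E := by
  classical
  unfold bge far
  apply card_le_card
  intro w hw
  rw [mem_filter] at hw ⊢
  refine ⟨hw.1, hw.2.1.1, 0, ?_⟩
  have h1 := hw.2.2
  have h2 := le_abs_self (disp w 0)
  push_cast at h1
  linarith

/-- algebra of the averaging hypothesis -/
theorem st_alg {Q K₁ t rl El R₀ R₁ Y₁ V q : ℝ} (hrl : 0 < rl) (hR₀ : 0 ≤ R₀) 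
    (hQ : 1 ≤ Q) (hK : 1 ≤ K₁)
    (hEl : 0 ≤ El) (hq : 0 ≤ q) (hV0 : 0 ≤ V) (hV : V ≤ 6 * q) (ha2 : rl * El ≤ 192 * Q * K₁ * t)
    (ha3 : 2 * R₁ ≤ 1152 * Q * K₁ * R₀) (ha4 : Y₁ ≤ 2 * (rl * R₀)) (hY₁ : 0 ≤ Y₁) {Y : ℝ}
    (hm : q * t ^ 3 ≤ Y₁ ^ 3)
    (hY : Y = Cst * K₁ ^ 4 * Q ^ 4 * Y₁) :
    rl * (2 * R₁) * (V * (99 * El) ^ 3) ≤ Y * R₀ ^ 3 := by
  have h2 : 0 < rl ^ 2 := by positivity
  refine le_of_mul_le_mul_right ?_ h2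
  have e1 : rl * (2 * R₁) * (V * (99 * El) ^ 3) * rl ^ 2 = (2 * R₁) * V * 99 ^ 3 * (rl * El) ^ 3 := by
    ring
  have e2 : Y * R₀ ^ 3 * rl ^ 2 = Y * R₀ * (rl * R₀) ^ 2 := by ring
  rw [e1, e2]
  have h3 : (rl * El) ^ 3 ≤ (192 * Q * K₁ * t) ^ 3 := pow_le_pow_left₀ (by positivity) ha2 3
  have h4 : Y₁ ^ 2 ≤ (2 * (rl * R₀)) ^ 2 := pow_le_pow_left₀ hY₁ ha4 2
  have hC : (0 : ℝ) ≤ Cst := by unfold Cst; norm_num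
  have hY0 : 0 ≤ Y := by rw [hY]; positivity
  calc (2 * R₁) * V * 99 ^ 3 * (rl * El) ^ 3
      ≤ (1152 * Q * K₁ * R₀) * (6 * q) * 99 ^ 3 * (192 * Q * K₁ * t) ^ 3 := by
        gcongr
    _ = (6912 * 99 ^ 3 * 192 ^ 3) * Q ^ 4 * K₁ ^ 4 * R₀ * (q * t ^ 3) := by ring
    _ ≤ (6912 * 99 ^ 3 * 192 ^ 3) * Q ^ 4 * K₁ ^ 4 * R₀ * Y₁ ^ 3 := by gcongr
    _ = (Cst / 4) * K₁ ^ 4 * Q ^ 4 * Y₁ * R₀ * Y₁ ^ 2 := by unfold Cst; ring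
    _ ≤ (Cst / 4) * K₁ ^ 4 * Q ^ 4 * Y₁ * R₀ * (2 * (rl * R₀)) ^ 2 := by gcongr
    _ = Y * R₀ * (rl * R₀) ^ 2 := by rw [hY]; ring

theorem st_div {Q M l : ℕ} (hQ : 2 ≤ Q) (hl : l ≤ M) :
    (2 * (((Q ^ M + 1) / Q ^ (l + 1) : ℕ) : ℝ) + 2) ≤ 6 * (Q : ℝ) ^ (M - l) := by
  have h1 : (Q ^ M + 1) / Q ^ (l + 1) ≤ 2 * Q ^ (M - l) := by
    apply Nat.div_le_of_le_mul
    have h2 : Q ^ M = Q ^ l * Q ^ (M - l) := by rw [← pow_add]; congr 1; omega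
    have h3 : 1 ≤ Q ^ M := Nat.one_le_pow _ _ (by omega)
    have h4 : Q ^ l ≤ Q ^ (l + 1) := Nat.pow_le_pow_right (by omega) (by omega)
    calc Q ^ M + 1 ≤ 2 * Q ^ M := by omega
      _ = Q ^ l * (2 * Q ^ (M - l)) := by rw [h2]; ring
      _ ≤ Q ^ (l + 1) * (2 * Q ^ (M - l)) := Nat.mul_le_mul_right _ h4
  have h5 : (((Q ^ M + 1) / Q ^ (l + 1) : ℕ) : ℝ) ≤ 2 * (Q : ℝ) ^ (M - l) := by exact_mod_cast h1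
  have h6 : (1 : ℝ) ≤ (Q : ℝ) ^ (M - l) :=
    one_le_pow₀ (by exact_mod_cast (by omega : 1 ≤ Q))
  linarith

end Pool.Agent.W325.S3
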