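import Pool.Agent.W325.S3.Step2
import Pool.Agent.H46R2.K3.MU

/-! The half-space walks of small height: the numerical form of HLE. -/

namespace Pool.Agent.W325.S3

open Finset Pool.Agent.H46R2.K3 Pool.Agent.H46R2.K3.P

theorem st_Cst : (1 : ℝ) ≤ Cst := by unfold Cst; norm_num

/-- all the parameters together -/
theorem st_data (hL : S_LAD) {x K : ℝ} (hx1 : 1 / 3 ≤ x) (hx2 : x ≤ 1 / 2)
    (hK : ∀ n : ℕ, (c n : ℝ) ≤ mu ^ n * Real.exp (K * (n : ℝ) ^ x)) {M y : ℕ} (hy : 1 ≤ y)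
    (hyM : 2 * y ≤ M) (h : 3 * x * M ≤ (2 + 3 * x) * y) {Q : ℕ} (hQ : 2 ≤ Q) {I : ℕ}
    (hI : I = M - y) {K₁ : ℝ} (hK₁ : K₁ = |K| + 20) :
    ∃ (g : ℕ → ℝ) (E : ℕ → ℕ) (r : ℕ → ℝ) (h len : ℕ → ℕ) (B : ℕ → Finset (List St))
      (R : ℕ → ℕ) (F : ℕ) (Y : ℝ), 1 ≤ g 0 ∧ (∀ l, g l ≤ g (l + 1)) ∧ Lad I E r h len B ∧
      (∀ l, 1 ≤ l → l ≤ I → BadLe (Q ^ l) (E l) (g l)) ∧
      (∀ l ≤ I, len l ≤ 2 * Q ^ I) ∧ (∀ i ≤ I, 1 ≤ R i) ∧ (∀ i < I, R i ≤ R (i + 1)) ∧ R I ≤ F ∧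
      E I ≤ F ∧ (∀ i ≤ I, r i * R i ≤ Y) ∧ r I * F ≤ Y ∧ (∀ l < I, 192 * r l * E (l + 1) ≤ Y) ∧
      (∀ l i, l ≤ i → i < I → r l * (2 * R (i + 1)) *
        ((2 * ((Q ^ M + 1) / Q ^ (l + 1) : ℕ) + 2) * (99 * (E (l + 1) : ℝ)) ^ 3) ≤
          Y * (R i : ℝ) ^ 3) ∧
      (∀ l < I, r l * F *
        ((2 * ((Q ^ M + 1) / Q ^ (l + 1) : ℕ) + 2) * (99 * (E (l + 1) : ℝ)) ^ 3) ≤
          Y * (R I : ℝ) ^ 3) ∧
      Y = Cst * K₁ ^ 4 * (Q : ℝ) ^ 4 * (Q : ℝ) ^ y ∧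
      (F : ℝ) ≤ 33 * K₁ * R I ∧ (R I : ℝ) ≤ (Q : ℝ) ^ y * (288 * (Q : ℝ)) ^ I ∧
      (∀ k < Q ^ I, (bge k (E I + 1) : ℝ) ≤ mu ^ k / (8 * (((Q ^ M + 1 : ℕ) : ℝ) + 2))) := by
  have hQ1 : (1 : ℝ) ≤ Q := by exact_mod_cast (by omega : 1 ≤ Q)
  have hQ2 : (2 : ℝ) ≤ Q := by exact_mod_cast hQ
  have hQ0 : (0 : ℝ) < Q := by linarith
  have hx0 : 0 ≤ x := by linarith
  have hK1 : 20 ≤ K₁ := by rw [hK₁]; linarith [abs_nonneg K]
  have hK0 : 0 < K₁ := by linarith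
  have hyM' : y ≤ M := by omega
  have hI1 : 1 ≤ I := by omega
  obtain ⟨g, hg⟩ : ∃ g : ℕ → ℝ, g = fun l => K₁ * tl Q x l := ⟨_, rfl⟩
  have ht1 : ∀ l, 1 ≤ tl Q x l := fun l => tl_one_le hQ hx0 l
  have hg1 : ∀ l, g l ≤ g (l + 1) := by
    intro l; rw [hg]
    exact mul_le_mul_of_nonneg_left (tl_mono hQ hx0 (by omega)) hK0.le
  have hg2 : 1 ≤ g 0 := by
    rw [hg]; have := ht1 0
    show 1 ≤ K₁ * tl Q x 0
    nlinarith
  have hg3 : ∀ l, g (l + 1) ≤ Q * g l := by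
    intro l; rw [hg]
    have := tl_succ hQ (show x ≤ 1 by linarith) l
    show K₁ * tl Q x (l + 1) ≤ Q * (K₁ * tl Q x l)
    nlinarith
  have hge : ∀ l, Real.exp (20 * tl Q x l) ≤ Real.exp (g l) := by
    intro l; rw [hg]
    apply Real.exp_le_exp.2
    show 20 * tl Q x l ≤ K₁ * tl Q x l
    have := ht1 l
    nlinarith
  have hg4 : ∀ l, 12 * ((Q : ℝ) ^ l + 1) ^ 2 ≤ Real.exp (g l) := fun l =>
    (st_base (one_le_pow₀ hQ1) hx1).1.trans (hge l)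
  have hg5 : ∀ l, (2 * (Q : ℝ) ^ l + 1) ^ 3 ≤ Real.exp (g l) := fun l =>
    (st_base (one_le_pow₀ hQ1) hx1).2.trans (hge l)
  have hmu1 := one_le_mu
  have hmu0 : (0 : ℝ) < mu := by linarith
  have hg6 : ∀ l, ∀ k ≤ Q ^ l, (c k : ℝ) ≤ mu ^ k * Real.exp (g l) := by
    intro l k hk
    refine (hK k).trans ?_
    apply mul_le_mul_of_nonneg_left _ (by positivity)
    apply Real.exp_le_exp.2
    have h1 : (k : ℝ) ^ x ≤ tl Q x l := by
      unfold tl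
      apply Real.rpow_le_rpow (by positivity) _ hx0
      exact_mod_cast hk
    have h2 : 0 ≤ (k : ℝ) ^ x := by positivity
    have h3 := le_abs_self K
    have h4 := abs_nonneg K
    rw [hg]
    show K * (k : ℝ) ^ x ≤ K₁ * tl Q x l
    have h5 : K * (k : ℝ) ^ x ≤ K₁ * (k : ℝ) ^ x :=
      mul_le_mul_of_nonneg_right (by rw [hK₁]; linarith) h2
    exact h5.trans (mul_le_mul_of_nonneg_left h1 hK0.le)
  obtain ⟨E, r, hh, len, B, hLad, hE, hrE, hrr, hlen, hbad, hfar⟩ :=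
    hL Q I g hQ hg1 hg2 hg3 hg4 hg5 hg6
  have hr0 : ∀ l ≤ I, 0 < r l := hLad.r_pos
  have hanti : ∀ {l i : ℕ}, l ≤ i → i ≤ I → r i ≤ r l := fun hli hi => st_anti hLad.r_anti hli hi
  have hr2 : ∀ l ≤ I, r l ≤ 2 := fun l hl => by
    have := hanti (Nat.zero_le l) hl
    rwa [hLad.r_zero] at this
  obtain ⟨Y₁, hY₁⟩ : ∃ Y₁ : ℝ, Y₁ = (Q : ℝ) ^ y := ⟨_, rfl⟩
  have hY₁2 : 2 ≤ Y₁ := by
    rw [hY₁]
    calc (2 : ℝ) ≤ Q := hQ2
      _ = (Q : ℝ) ^ 1 := (pow_one _).symm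
      _ ≤ _ := pow_le_pow_right₀ hQ1 hy
  have hY₁0 : 0 ≤ Y₁ := by linarith
  obtain ⟨R, hR⟩ : ∃ R : ℕ → ℕ, R = fun i => ⌊Y₁ / r i⌋₊ := ⟨_, rfl⟩
  have hYr : ∀ i ≤ I, 1 ≤ Y₁ / r i := by
    intro i hi
    rw [le_div_iff₀ (hr0 i hi)]
    have := hr2 i hi
    linarith
  have hRf : ∀ i ≤ I, 1 ≤ R i ∧ (R i : ℝ) ≤ Y₁ / r i ∧ Y₁ / r i ≤ 2 * (R i : ℝ) := by
    intro i hi; rw [hR]; exact st_floor (hYr i hi)
  have hRa : ∀ i ≤ I, r i * R i ≤ Y₁ := by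
    intro i hi
    have h1 := (hRf i hi).2.1
    rw [le_div_iff₀ (hr0 i hi)] at h1
    linarith
  have hRb : ∀ i ≤ I, Y₁ ≤ 2 * (r i * R i) := by
    intro i hi
    have h1 := (hRf i hi).2.2
    rw [div_le_iff₀ (hr0 i hi)] at h1
    linarith
  have ha4 : ∀ l i, l ≤ i → i ≤ I → Y₁ ≤ 2 * (r l * R i) := by
    intro l i hli hi
    refine (hRb i hi).trans ?_
    have := hanti hli hi
    gcongr
  have hRm : ∀ i < I, R i ≤ R (i + 1) := by
    intro i hi; rw [hR]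
    apply Nat.floor_le_floor
    have h1 := hr0 (i + 1) (by omega)
    have h2 := hLad.r_anti i hi
    gcongr
  have ha3 : ∀ i < I, 2 * (R (i + 1) : ℝ) ≤ 1152 * Q * R i := by
    intro i hi
    have h1 := (hRf (i + 1) (by omega)).2.1
    have h2 := hrr i hi
    have h3 := hr0 (i + 1) (by omega)
    have h4 := hr0 i (by omega)
    have h5 := (hRf i (by omega)).2.2
    have h6 : Y₁ / r (i + 1) ≤ 288 * Q * (Y₁ / r i) := by
      rw [div_le_iff₀ h3]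
      have e : 288 * Q * (Y₁ / r i) * r (i + 1) = Y₁ * (288 * Q * r (i + 1)) / r i := by ring
      rw [e, le_div_iff₀ h4]
      exact mul_le_mul_of_nonneg_left h2 hY₁0
    have h7 : 288 * (Q : ℝ) * (Y₁ / r i) ≤ 288 * Q * (2 * R i) :=
      mul_le_mul_of_nonneg_left h5 (by positivity)
    linarith
  have htop : ∀ l ≤ I, tl Q x l ≤ Y₁ := by
    intro l hl; rw [hY₁]
    exact tl_top hQ hyM' (by omega) hx1 h
  have hmain : ∀ l ≤ I, (Q : ℝ) ^ (M - l) * tl Q x l ^ 3 ≤ Y₁ ^ 3 := by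
    intro l hl
    rw [hY₁, ← pow_mul, mul_comm y 3]
    exact tl_main hQ hyM' (by omega) hx1 h
  have ha2 : ∀ l < I, r l * (E (l + 1) : ℝ) ≤ 192 * Q * K₁ * tl Q x l := by
    intro l hl
    have h1 : (E (l + 1) : ℝ) ≤ 12 * Q * E l := by exact_mod_cast hE l hl
    have h2 := hrE l (by omega)
    have h3 := hr0 l (by omega)
    have h4 : g l = K₁ * tl Q x l := by rw [hg]
    rw [h4] at h2
    calc r l * (E (l + 1) : ℝ) ≤ r l * (12 * Q * E l) := mul_le_mul_of_nonneg_left h1 h3.le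
      _ = 12 * Q * (r l * E l) := by ring
      _ ≤ 12 * Q * (16 * (K₁ * tl Q x l)) := mul_le_mul_of_nonneg_left h2 (by positivity)
      _ = 192 * Q * K₁ * tl Q x l := by ring
  have hEI : r I * (E I : ℝ) ≤ 16 * K₁ * Y₁ := by
    have h2 := hrE I le_rfl
    have h4 : g I = K₁ * tl Q x I := by rw [hg]
    rw [h4] at h2
    have h5 := htop I le_rfl
    calc r I * (E I : ℝ) ≤ 16 * (K₁ * tl Q x I) := h2
      _ ≤ 16 * (K₁ * Y₁) := by gcongr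
      _ = _ := by ring
  have hFb : ((R I + E I : ℕ) : ℝ) ≤ 33 * K₁ * R I := by
    have h1 := hRb I le_rfl
    have h2 := hr0 I le_rfl
    have h3 : r I * (E I : ℝ) ≤ r I * (32 * K₁ * R I) := by
      calc r I * (E I : ℝ) ≤ 16 * K₁ * Y₁ := hEI
        _ ≤ 16 * K₁ * (2 * (r I * R I)) := by gcongr
        _ = _ := by ring
    have h4 := le_of_mul_le_mul_left h3 h2
    have h5 : (0 : ℝ) ≤ R I := Nat.cast_nonneg _
    push_cast
    nlinarith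
  obtain ⟨Y, hY⟩ : ∃ Y : ℝ, Y = Cst * K₁ ^ 4 * (Q : ℝ) ^ 4 * Y₁ := ⟨_, rfl⟩
  have hC1 := st_Cst
  have hC0 : 0 < Cst := by linarith
  have hK4 : K₁ ≤ K₁ ^ 4 := le_self_pow₀ (by linarith) (by norm_num)
  have hQ4 : (Q : ℝ) ≤ (Q : ℝ) ^ 4 := le_self_pow₀ hQ1 (by norm_num)
  have hYbig : 36864 * Q * K₁ * Y₁ ≤ Y := by
    rw [hY]
    have h1 : (36864 : ℝ) ≤ Cst := by unfold Cst; norm_num
    calc 36864 * Q * K₁ * Y₁ = 36864 * K₁ * Q * Y₁ := by ring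
      _ ≤ Cst * K₁ ^ 4 * (Q : ℝ) ^ 4 * Y₁ := by gcongr
  have hYY : Y₁ ≤ Y := by
    refine le_trans ?_ hYbig
    have h1 : (1 : ℝ) ≤ 36864 * Q * K₁ := by nlinarith
    nlinarith
  refine ⟨g, E, r, hh, len, B, R, R I + E I, Y, hg2, hg1, hLad, hbad, hlen,
    fun i hi => (hRf i hi).1, hRm, Nat.le_add_right _ _, Nat.le_add_left _ _,
    fun i hi => (hRa i hi).trans hYY, ?_, ?_, ?_, ?_, ?_, hFb, ?_, ?_⟩
  · -- r I * F
    refine le_trans ?_ hYbig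
    have h1 := hRa I le_rfl
    push_cast
    have h2 : (1 : ℝ) ≤ K₁ := by linarith
    have h3 : Y₁ ≤ K₁ * Y₁ := by nlinarith
    have h4 : K₁ * Y₁ ≤ Q * (K₁ * Y₁) := by
      have : 0 ≤ K₁ * Y₁ := by positivity
      nlinarith
    nlinarith
  · -- taper
    intro l hl
    refine le_trans ?_ hYbig
    have h1 := ha2 l hl
    have h2 := htop l (by omega)
    calc 192 * r l * (E (l + 1) : ℝ) = 192 * (r l * E (l + 1)) := by ring
      _ ≤ 192 * (192 * Q * K₁ * tl Q x l) := by gcongr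
      _ ≤ 192 * (192 * Q * K₁ * Y₁) := by gcongr
      _ = 36864 * Q * K₁ * Y₁ := by ring
  · -- averages
    intro l i hli hi
    apply st_alg (q := (Q : ℝ) ^ (M - l)) (t := tl Q x l) (K₁ := K₁) (Q := Q) (Y₁ := Y₁)
      (hr0 l (by omega)) (Nat.cast_nonneg _) hQ1 (by linarith) (Nat.cast_nonneg _) (by positivity)
      (by positivity) (st_div hQ (by omega)) (ha2 l (by omega)) _ (ha4 l i hli (by omega)) hY₁0
      (hmain l (by omega)) hY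
    have h1 := ha3 i hi
    have h2 : (0 : ℝ) ≤ 1152 * Q * R i := by positivity
    calc 2 * (R (i + 1) : ℝ) ≤ 1152 * Q * R i := h1
      _ ≤ (1152 * Q * R i) * K₁ := by nlinarith
      _ = 1152 * Q * K₁ * R i := by ring
  · -- final averages
    intro l hl
    have h0 := st_alg (q := (Q : ℝ) ^ (M - l)) (t := tl Q x l) (K₁ := K₁) (Q := Q) (Y₁ := Y₁)
      (rl := r l) (El := E (l + 1)) (R₀ := R I) (R₁ := ((R I + E I : ℕ) : ℝ) / 2)
      (V := (2 * ((Q ^ M + 1) / Q ^ (l + 1) : ℕ) + 2)) (Y := Y)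
      (hr0 l (by omega)) (Nat.cast_nonneg _) hQ1 (by linarith) (Nat.cast_nonneg _) (by positivity)
      (by positivity) (st_div hQ (by omega)) (ha2 l (by omega)) (by
        have h5 : (0 : ℝ) ≤ K₁ * R I := by positivity
        have h6 : 33 * K₁ * (R I : ℝ) ≤ 1152 * Q * K₁ * R I := by nlinarith
        linarith) (ha4 l I (by omega) le_rfl) hY₁0
      (hmain l (by omega)) hY
    have e : (2 * (((R I + E I : ℕ) : ℝ) / 2)) = ((R I + E I : ℕ) : ℝ) := by ring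
    rw [e] at h0
    exact h0
  · rw [hY, hY₁]
  · -- R I
    have h1 := (hRf I le_rfl).2.1
    have h2 : ∀ l ≤ I, 2 ≤ r l * (288 * (Q : ℝ)) ^ l := by
      intro l
      induction l with
      | zero => intro _; rw [hLad.r_zero]; norm_num
      | succ l ih =>
        intro hl
        have h3 := ih (by omega)
        have h4 := hrr l (by omega)
        calc (2 : ℝ) ≤ r l * (288 * (Q : ℝ)) ^ l := h3
          _ ≤ (288 * Q * r (l + 1)) * (288 * (Q : ℝ)) ^ l := by gcongr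
          _ = r (l + 1) * (288 * (Q : ℝ)) ^ (l + 1) := by ring
    have h3 := h2 I le_rfl
    refine h1.trans ?_
    rw [div_le_iff₀ (hr0 I le_rfl), ← hY₁]
    calc Y₁ = Y₁ * 1 := (mul_one _).symm
      _ ≤ Y₁ * (r I * (288 * (Q : ℝ)) ^ I) := by gcongr; linarith
      _ = Y₁ * (288 * (Q : ℝ)) ^ I * r I := by ring
  · -- bridges
    intro k hk
    have h1 := hfar hI1 k hk.le
    have h2 : (bge k (E I + 1) : ℝ) ≤ far k (E I) := by exact_mod_cast st_far_bge k (E I)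
    refine h2.trans (h1.trans ?_)
    rw [div_eq_mul_inv]
    apply mul_le_mul_of_nonneg_left _ (by positivity)
    rw [Real.exp_neg]
    apply inv_anti₀ (by positivity)
    have h3 := hg4 I
    have h4 : (12 * ((Q : ℝ) ^ I + 1) ^ 2) ^ 4 ≤ Real.exp (4 * g I) := by
      have e : Real.exp (4 * g I) = Real.exp (g I) ^ 4 := by
        rw [← Real.exp_nat_mul]; norm_num
      rw [e]
      exact pow_le_pow_left₀ (by positivity) h3 4
    refine le_trans ?_ h4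
    have h5 : (Q : ℝ) ^ M ≤ ((Q : ℝ) ^ I) ^ 8 := by
      rw [← pow_mul]
      exact pow_le_pow_right₀ hQ1 (by omega)
    have h6 : (1 : ℝ) ≤ (Q : ℝ) ^ M := one_le_pow₀ hQ1
    have h7 : (12 * ((Q : ℝ) ^ I + 0) ^ 2) ^ 4 ≤ (12 * ((Q : ℝ) ^ I + 1) ^ 2) ^ 4 := by
      gcongr; norm_num
    have h8 : (12 * ((Q : ℝ) ^ I + 0) ^ 2) ^ 4 = 20736 * ((Q : ℝ) ^ I) ^ 8 := by ring
    push_cast
    linarith

end Pool.Agent.W325.S3
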