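import Pool.Agent.W325.S3.Step3
import Pool.Agent.H46R2.K3.REC
import Pool.Agent.H46R2.K3.CUT

/-! STEP: one step of the bootstrap. -/

namespace Pool.Agent.W325.S3

open Finset Pool.Agent.H46R2.K3 Pool.Agent.H46R2.K3.P

/-- the bound `σ` -/
theorem st_sigma {I M y : ℕ} {K₁ : ℝ} (hK₁ : 20 ≤ K₁) :
    ∃ C : ℝ, 0 < C ∧ ∀ (Q : ℕ), 2 ≤ Q → ∀ (RI F : ℕ) (Y : ℝ),
      Y = Cst * K₁ ^ 4 * (Q : ℝ) ^ 4 * (Q : ℝ) ^ y → (F : ℝ) ≤ 33 * K₁ * RI →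
      (RI : ℝ) ≤ (Q : ℝ) ^ y * (288 * (Q : ℝ)) ^ I → ∀ n ≤ Q ^ M + 1,
      (I : ℝ) + Real.exp (14 * ((I : ℝ) + 1) ^ 2 * Y) *
        (((6 * (I + 1) * RI + F) * (2 * Q ^ I) : ℕ) + 1) *
        (37 * ((n : ℝ) + ((6 * (I + 1) * RI + F) * (2 * Q ^ I) : ℕ) + 1) ^ 4) ^
          ⌊14 * ((I : ℝ) + 1) ^ 2 * Y⌋₊ ≤ Real.exp (C * (Q : ℝ) ^ (y + 5)) := by
  obtain ⟨a, ha⟩ : ∃ a : ℕ, a = y + I + I + M := ⟨_, rfl⟩
  obtain ⟨C₃, hC₃⟩ : ∃ C₃ : ℝ, C₃ = 2 * (6 * ((I : ℝ) + 1) + 33 * K₁) * 288 ^ I + 3 := ⟨_, rfl⟩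
  have hC₃1 : 1 ≤ C₃ := by
    rw [hC₃]
    have : 0 ≤ 2 * (6 * ((I : ℝ) + 1) + 33 * K₁) * 288 ^ I := by positivity
    linarith
  obtain ⟨D, hD⟩ : ∃ D : ℝ, D = 37 * C₃ ^ 4 := ⟨_, rfl⟩
  have hD1 : 1 ≤ D := by
    rw [hD]
    have : 1 ≤ C₃ ^ 4 := one_le_pow₀ hC₃1
    linarith
  have hlD : 0 ≤ Real.log D := Real.log_nonneg hD1
  obtain ⟨c₂, hc₂⟩ : ∃ c₂ : ℝ, c₂ = Real.log D + ((4 * a : ℕ) : ℝ) := ⟨_, rfl⟩
  have hc₂0 : 0 ≤ c₂ := by rw [hc₂]; positivity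
  obtain ⟨c₁, hc₁⟩ : ∃ c₁ : ℝ, c₁ = 14 * ((I : ℝ) + 1) ^ 2 * (Cst * K₁ ^ 4) := ⟨_, rfl⟩
  have hCst := st_Cst
  have hc₁0 : 0 < c₁ := by
    rw [hc₁]
    have : 0 < Cst := by linarith
    have : 0 < K₁ := by linarith
    positivity
  refine ⟨I + c₁ + c₂ + c₁ * c₂, by positivity, ?_⟩
  intro Q hQ RI F Y hY hF hR n hn
  have hQ1 : (1 : ℝ) ≤ Q := by exact_mod_cast (by omega : 1 ≤ Q)
  have hQ0 : (0 : ℝ) < Q := by linarith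
  obtain ⟨Lx, hLx⟩ : ∃ Lx : ℕ, Lx = (6 * (I + 1) * RI + F) * (2 * Q ^ I) := ⟨_, rfl⟩
  rw [← hLx]
  have hQa : (1 : ℝ) ≤ (Q : ℝ) ^ a := one_le_pow₀ hQ1
  have hn' : (n : ℝ) ≤ 2 * (Q : ℝ) ^ a := by
    have h1 : (n : ℝ) ≤ (Q : ℝ) ^ M + 1 := by exact_mod_cast hn
    have h2 : (Q : ℝ) ^ M ≤ (Q : ℝ) ^ a := pow_le_pow_right₀ hQ1 (by omega)
    linarith
  have hLx' : (Lx : ℝ) ≤ 2 * (6 * ((I : ℝ) + 1) + 33 * K₁) * 288 ^ I * (Q : ℝ) ^ a := by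
    rw [hLx]
    push_cast
    have h1 : (Q : ℝ) ^ (y + I + I) ≤ (Q : ℝ) ^ a := pow_le_pow_right₀ hQ1 (by omega)
    calc (6 * ((I : ℝ) + 1) * RI + F) * (2 * (Q : ℝ) ^ I)
        ≤ (6 * ((I : ℝ) + 1) * RI + 33 * K₁ * RI) * (2 * (Q : ℝ) ^ I) := by gcongr
      _ = 2 * (6 * ((I : ℝ) + 1) + 33 * K₁) * RI * (Q : ℝ) ^ I := by ring
      _ ≤ 2 * (6 * ((I : ℝ) + 1) + 33 * K₁) * ((Q : ℝ) ^ y * (288 * (Q : ℝ)) ^ I) *
          (Q : ℝ) ^ I := by gcongr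
      _ = 2 * (6 * ((I : ℝ) + 1) + 33 * K₁) * 288 ^ I * (Q : ℝ) ^ (y + I + I) := by
          rw [mul_pow]; ring
      _ ≤ _ := by gcongr
  have hbase : (n : ℝ) + Lx + 1 ≤ C₃ * (Q : ℝ) ^ a := by
    rw [hC₃]
    linarith
  obtain ⟨W, hW⟩ : ∃ W : ℝ, W = c₂ * Q := ⟨_, rfl⟩
  have hW0 : 0 ≤ W := by rw [hW]; positivity
  have hT : 37 * ((n : ℝ) + Lx + 1) ^ 4 ≤ Real.exp W := by
    have h1 : 37 * ((n : ℝ) + Lx + 1) ^ 4 ≤ D * (Q : ℝ) ^ (4 * a) := by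
      calc 37 * ((n : ℝ) + Lx + 1) ^ 4 ≤ 37 * (C₃ * (Q : ℝ) ^ a) ^ 4 := by gcongr
        _ = D * (Q : ℝ) ^ (4 * a) := by rw [hD, mul_comm 4 a, pow_mul]; ring
    refine h1.trans ?_
    rw [hW, hc₂]
    exact st_exp hQ D hD1 (4 * a)
  have hn0 : (0 : ℝ) ≤ n := Nat.cast_nonneg n
  have hLx0 : (0 : ℝ) ≤ Lx := Nat.cast_nonneg _
  have hT1 : (Lx : ℝ) + 1 ≤ Real.exp W := by
    refine le_trans ?_ hT
    have h1 : (1 : ℝ) ≤ (n : ℝ) + Lx + 1 := by linarith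
    have h2 : (n : ℝ) + Lx + 1 ≤ ((n : ℝ) + Lx + 1) ^ 4 := le_self_pow₀ h1 (by norm_num)
    linarith
  obtain ⟨Y', hY'⟩ : ∃ Y' : ℝ, Y' = 14 * ((I : ℝ) + 1) ^ 2 * Y := ⟨_, rfl⟩
  have hY'e : Y' = c₁ * (Q : ℝ) ^ (y + 4) := by
    rw [hY', hY, hc₁]; ring
  have hY'0 : 0 ≤ Y' := by rw [hY'e]; positivity
  rw [← hY']
  have hpow : (37 * ((n : ℝ) + Lx + 1) ^ 4) ^ ⌊Y'⌋₊ ≤ Real.exp (Y' * W) := by
    calc (37 * ((n : ℝ) + Lx + 1) ^ 4) ^ ⌊Y'⌋₊ ≤ (Real.exp W) ^ ⌊Y'⌋₊ := by gcongr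
      _ = Real.exp (⌊Y'⌋₊ * W) := by rw [← Real.exp_nat_mul]
      _ ≤ Real.exp (Y' * W) := by
          apply Real.exp_le_exp.2
          have := Nat.floor_le hY'0
          gcongr
  have hA : Real.exp Y' * ((Lx : ℝ) + 1) * (37 * ((n : ℝ) + Lx + 1) ^ 4) ^ ⌊Y'⌋₊ ≤
      Real.exp (Y' + W + Y' * W) := by
    rw [Real.exp_add, Real.exp_add]
    gcongr
  have hA0 : 0 ≤ Y' + W + Y' * W := by positivity
  have hI0 : (0 : ℝ) ≤ I := Nat.cast_nonneg _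
  have hB : (I : ℝ) + Real.exp (Y' + W + Y' * W) ≤ Real.exp (I + (Y' + W + Y' * W)) := by
    rw [Real.exp_add (I : ℝ)]
    have h1 := Real.add_one_le_exp (I : ℝ)
    have h2 := Real.one_le_exp hA0
    nlinarith
  refine le_trans (add_le_add_right hA (I : ℝ)) (le_trans hB ?_)
  apply Real.exp_le_exp.2
  have q5 : (Q : ℝ) ^ (y + 4) ≤ (Q : ℝ) ^ (y + 5) := pow_le_pow_right₀ hQ1 (by omega)
  have q0 : (1 : ℝ) ≤ (Q : ℝ) ^ (y + 5) := one_le_pow₀ hQ1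
  have q1 : (Q : ℝ) ≤ (Q : ℝ) ^ (y + 5) := le_self_pow₀ hQ1 (by omega)
  have e1 : Y' * W = c₁ * c₂ * (Q : ℝ) ^ (y + 5) := by rw [hY'e, hW]; ring
  have e2 : Y' ≤ c₁ * (Q : ℝ) ^ (y + 5) := by rw [hY'e]; gcongr
  have e3 : W ≤ c₂ * (Q : ℝ) ^ (y + 5) := by rw [hW]; gcongr
  have e4 : (I : ℝ) ≤ I * (Q : ℝ) ^ (y + 5) := by nlinarith
  rw [e1]
  nlinarith

theorem step (hL : S_LAD) (hH : S_HLE) : S_STEP := by
  intro x hx1 hx2 hP M y hy hyM h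
  obtain ⟨K, hK⟩ := hP
  obtain ⟨K₁, hK₁⟩ : ∃ K₁ : ℝ, K₁ = |K| + 20 := ⟨_, rfl⟩
  obtain ⟨I, hI⟩ : ∃ I : ℕ, I = M - y := ⟨_, rfl⟩
  have hI1 : 1 ≤ I := by omega
  have hK20 : 20 ≤ K₁ := by rw [hK₁]; linarith [abs_nonneg K]
  obtain ⟨C, hC, hσ⟩ := st_sigma (I := I) (M := M) (y := y) hK20
  refine ⟨2 * (C + 2 * (3 + M) + 1) + (4 + M), ?_⟩
  intro Q hQ n hn
  obtain ⟨g, E, r, hh, len, B, R, F, Y, hg2, hg1, hLad, hbad, hlen, hR1, hRm, hRF, hEF, hrR, hrF,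
    htap, havg, havF, hY, hFb, hRb, hbge⟩ := st_data hL hx1 hx2 hK hy hyM h hQ hI hK₁
  have hmu1 := one_le_mu
  have hmu0 : (0 : ℝ) < mu := by linarith
  have hQ1 : (1 : ℝ) ≤ Q := by exact_mod_cast (by omega : 1 ≤ Q)
  have hQ0 : (0 : ℝ) < Q := by linarith
  have hQM : 1 ≤ Q ^ M := Nat.one_le_pow _ _ (by omega)
  obtain ⟨σ, hσe⟩ : ∃ σ : ℝ, σ = Real.exp (C * (Q : ℝ) ^ (y + 5)) := ⟨_, rfl⟩
  have hσ1 : 1 ≤ σ := by rw [hσe]; exact Real.one_le_exp (by positivity)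
  have hhle : ∀ m ≤ Q ^ M + 1, (hle m (E I) : ℝ) ≤ σ * mu ^ m := by
    intro m hm
    have h1 := hH Q I (Q ^ M + 1) g hQ hI1 (by omega) hg2 hg1 E r hh len B hLad hbad (2 * Q ^ I)
      hlen R F Y hR1 hRm hRF hEF hrR hrF htap havg havF m hm
    have h2 := hσ Q hQ (R I) F Y hY hFb hRb m hm
    rw [← hσe] at h2
    refine h1.trans ?_
    rw [mul_comm σ]
    exact mul_le_mul_of_nonneg_left h2 (by positivity)
  have hhs := hs_bound (N := Q ^ M + 1) (Lb := Q ^ I) (ρ := E I) (σ := σ) hσ1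
    (Nat.one_le_pow _ _ (by omega)) hhle hbge
  obtain ⟨Bd, hBd⟩ : ∃ Bd : ℝ, Bd = 2 * σ * (4 * (((Q ^ M + 1 : ℕ) : ℝ) + 2)) ^ (2 * Q ^ y) :=
    ⟨_, rfl⟩
  have hNe : (((Q ^ M + 1 : ℕ) : ℝ) + 2) = (Q : ℝ) ^ M + 3 := by push_cast; ring
  have hQMr : (1 : ℝ) ≤ (Q : ℝ) ^ M := one_le_pow₀ hQ1
  have hbase : (1 : ℝ) ≤ 4 * (((Q ^ M + 1 : ℕ) : ℝ) + 2) := by
    rw [hNe]; linarith
  have hdiv : (Q ^ M + 1) / Q ^ I ≤ 2 * Q ^ y := by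
    apply Nat.div_le_of_le_mul
    have h2 : Q ^ M = Q ^ I * Q ^ y := by rw [← pow_add]; congr 1; omega
    calc Q ^ M + 1 ≤ 2 * Q ^ M := by omega
      _ = Q ^ I * (2 * Q ^ y) := by rw [h2]; ring
  have hB0 : 0 ≤ Bd := by rw [hBd]; positivity
  have hhs' : ∀ m ≤ Q ^ M + 1, (hs m : ℝ) ≤ Bd * mu ^ m := by
    intro m hm
    refine (hhs m hm).trans ?_
    rw [hBd]
    apply mul_le_mul_of_nonneg_right _ (by positivity)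
    apply mul_le_mul_of_nonneg_left _ (by positivity)
    exact pow_le_pow_right₀ hbase ((Nat.div_le_div_right hm).trans hdiv)
  have hc : (c n : ℝ) ≤ ((n : ℝ) + 1) * Bd ^ 2 * mu ^ (n + 1) := by
    have h1 : (c n : ℝ) ≤ ∑ k ∈ range (n + 1), (hs (k + 1) : ℝ) * (hs (n - k) : ℝ) := by
      exact_mod_cast c_split n
    refine h1.trans ?_
    have h2 : ∀ k ∈ range (n + 1), (hs (k + 1) : ℝ) * (hs (n - k) : ℝ) ≤
        Bd ^ 2 * mu ^ (n + 1) := by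
      intro k hk
      rw [mem_range] at hk
      calc (hs (k + 1) : ℝ) * (hs (n - k) : ℝ) ≤ (Bd * mu ^ (k + 1)) * (Bd * mu ^ (n - k)) := by
            apply mul_le_mul (hhs' _ (by omega)) (hhs' _ (by omega)) (by positivity)
              (by positivity)
        _ = Bd ^ 2 * mu ^ (k + 1 + (n - k)) := by rw [pow_add]; ring
        _ = Bd ^ 2 * mu ^ (n + 1) := by congr 2; omega
    refine (sum_le_sum h2).trans ?_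
    rw [sum_const, card_range, nsmul_eq_mul]
    push_cast
    exact le_of_eq (by ring)
  -- numerics
  obtain ⟨T, hT⟩ : ∃ T : ℝ, T = (Q : ℝ) ^ (y + 5) := ⟨_, rfl⟩
  have hT1 : 1 ≤ T := by rw [hT]; exact one_le_pow₀ hQ1
  have hQT : (Q : ℝ) ≤ T := by rw [hT]; exact le_self_pow₀ hQ1 (by omega)
  have hlog : ∀ D : ℝ, 1 ≤ D → D ≤ 20 → Real.log D ≤ 3 := by
    intro D h1 h2
    have h3 : Real.log D ≤ Real.log (Real.exp 3) := by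
      apply Real.log_le_log (by linarith)
      have e3 : Real.exp 3 = Real.exp 1 ^ 3 := by rw [← Real.exp_nat_mul]; norm_num
      have h4 := Real.exp_one_gt_d9
      have h5 : (2.7182818283 : ℝ) ^ 3 ≤ Real.exp 1 ^ 3 := by gcongr
      rw [e3]
      refine h2.trans (le_trans (by norm_num) h5)
    rwa [Real.log_exp] at h3
  have f1 : (4 * (((Q ^ M + 1 : ℕ) : ℝ) + 2)) ^ (2 * Q ^ y) ≤ Real.exp (2 * (3 + M) * T) := by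
    have h1 : 4 * (((Q ^ M + 1 : ℕ) : ℝ) + 2) ≤ Real.exp ((3 + M) * Q) := by
      have h2 := st_exp hQ 16 (by norm_num) M
      have h3 := hlog 16 (by norm_num) (by norm_num)
      calc 4 * (((Q ^ M + 1 : ℕ) : ℝ) + 2) = 4 * ((Q : ℝ) ^ M + 3) := by rw [hNe]
        _ ≤ 16 * (Q : ℝ) ^ M := by linarith
        _ ≤ _ := h2
        _ ≤ _ := Real.exp_le_exp.2 (by gcongr)
    calc (4 * (((Q ^ M + 1 : ℕ) : ℝ) + 2)) ^ (2 * Q ^ y)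
        ≤ (Real.exp ((3 + M) * Q)) ^ (2 * Q ^ y) := by gcongr
      _ = Real.exp (((2 * Q ^ y : ℕ) : ℝ) * ((3 + M) * Q)) := by rw [← Real.exp_nat_mul]
      _ ≤ _ := by
          apply Real.exp_le_exp.2
          have h5 : (Q : ℝ) ^ (y + 1) ≤ T := by
            rw [hT]; exact pow_le_pow_right₀ hQ1 (by omega)
          calc (((2 * Q ^ y : ℕ) : ℝ) * ((3 + M) * Q)) = 2 * (3 + M) * (Q : ℝ) ^ (y + 1) := by
                push_cast; ring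
            _ ≤ _ := by gcongr
  have f2 : 4 * (((n : ℝ) + 1) * mu) ≤ Real.exp ((4 + M) * T) := by
    have h2 := st_exp hQ 48 (by norm_num) M
    have h3 : Real.log 48 ≤ 4 := by
      have e4 : Real.exp 4 = Real.exp 1 ^ 4 := by rw [← Real.exp_nat_mul]; norm_num
      have h4 := Real.exp_one_gt_d9
      have h5 : (2.7182818283 : ℝ) ^ 4 ≤ Real.exp 1 ^ 4 := by gcongr
      have h6 : (48 : ℝ) ≤ Real.exp 4 := by rw [e4]; exact le_trans (by norm_num) h5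
      have h7 := Real.log_le_log (by norm_num) h6
      rwa [Real.log_exp] at h7
    have h4 : (n : ℝ) ≤ (Q : ℝ) ^ M := by exact_mod_cast hn
    have h5 := mu_le_six
    calc 4 * (((n : ℝ) + 1) * mu) ≤ 4 * (((Q : ℝ) ^ M + 1) * 6) := by gcongr
      _ ≤ 48 * (Q : ℝ) ^ M := by linarith
      _ ≤ _ := h2
      _ ≤ _ := Real.exp_le_exp.2 (by gcongr)
  have f3 : Bd ≤ 2 * Real.exp ((C + 2 * (3 + M)) * T) := by
    rw [hBd, hσe, ← hT]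
    calc 2 * Real.exp (C * T) * (4 * (((Q ^ M + 1 : ℕ) : ℝ) + 2)) ^ (2 * Q ^ y)
        ≤ 2 * Real.exp (C * T) * Real.exp (2 * (3 + M) * T) := by gcongr
      _ = 2 * Real.exp ((C + 2 * (3 + M)) * T) := by rw [mul_assoc, ← Real.exp_add]; ring_nf
  rw [← hT]
  calc (c n : ℝ) ≤ ((n : ℝ) + 1) * Bd ^ 2 * mu ^ (n + 1) := hc
    _ ≤ ((n : ℝ) + 1) * (2 * Real.exp ((C + 2 * (3 + M)) * T)) ^ 2 * mu ^ (n + 1) := by gcongr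
    _ = mu ^ n * ((4 * (((n : ℝ) + 1) * mu)) * Real.exp ((C + 2 * (3 + M)) * T) ^ 2) := by ring
    _ ≤ mu ^ n * (Real.exp ((4 + M) * T) * Real.exp ((C + 2 * (3 + M)) * T) ^ 2) := by gcongr
    _ = mu ^ n * Real.exp ((2 * (C + 2 * (3 + M)) + (4 + M)) * T) := by
        rw [← Real.exp_nat_mul, ← Real.exp_add]
        congr 2
        push_cast
        ring
    _ ≤ _ := by
        apply mul_le_mul_of_nonneg_left _ (by positivity)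
        apply Real.exp_le_exp.2
        apply mul_le_mul_of_nonneg_right _ (by linarith)
        linarith

end Pool.Agent.W325.S3
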