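import Pool.Agent.H46R2.K3.Defs

/-!
Project S3: self-avoiding walks on `ℤ³`, `c_n ≤ μ^n exp(K n^(1/3+ε))`.
Definitions and the statements `S_…` of the parts (everything over the landed library `H46R2.K3`).
-/

namespace Pool.Agent.W325.S3

open Finset Pool.Agent.H46R2.K3

/-! ### typical walks -/

open Classical in
/-- self-avoiding words of length `k` whose displacement is `≥ E` in the sup norm -/
noncomputable def far (k E : ℕ) : ℕ :=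
  #((W k).filter fun w => Saw w ∧ ∃ d, (E : ℤ) ≤ |disp w d|)

/-- the positions of `w` are covered by `p` cubes of radius `E` -/
def Cov (w : List St) (E p : ℕ) : Prop :=
  ∃ P : Finset V, #P ≤ p ∧ ∀ i ≤ w.length, ∃ a ∈ P, ∀ d, |pos w i d - a d| ≤ (E : ℤ)

open Classical in
/-- self-avoiding words of length `n` which are not covered by `p` cubes of radius `E` -/
noncomputable def bad (n E p : ℕ) : ℕ := #((W n).filter fun w => Saw w ∧ ¬ Cov w E p)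

/-- the bound on bad walks at scale `m` -/
def BadLe (m E : ℕ) (g : ℝ) : Prop := ∀ n p : ℕ,
  (bad n E p : ℝ) ≤ mu ^ n * Real.exp (g * (5 * ((n / m : ℕ) : ℝ) + 1 - 3 * (p : ℝ)))

/-- FAST -/
def S_FAST : Prop := ∀ (m E : ℕ) (g : ℝ), 1 ≤ m → 1 ≤ E → (m : ℝ) + 1 ≤ Real.exp g →
  (∀ k ≤ m, (c k : ℝ) ≤ mu ^ k * Real.exp g) →
  (∀ k ≤ m, (far k E : ℝ) ≤ mu ^ k * Real.exp (-(4 * g))) → BadLe m E g

/-- EXT -/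
def S_EXT : Prop := ∀ (w : List St) (E p : ℕ), Cov w E p → ∀ i ≤ w.length, ∀ j ≤ w.length,
  ∀ d, pos w i d - pos w j d < (p : ℤ) * (2 * (E : ℤ) + 1)

/-! ### blocks -/

open Classical in
/-- bridges of length `j`, of span `≥ s` and contained in the cube of radius `R` around the start -/
noncomputable def brr (j s R : ℕ) : Finset (List St) :=
  (W j).filter fun w => Br w ∧ (s : ℤ) ≤ disp w 0 ∧ ∀ i ≤ j, ∀ d, |pos w i d| ≤ (R : ℤ)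

/-- BLK1 -/
def S_BLK1 : Prop := ∀ (m E : ℕ) (g : ℝ), 1 ≤ m → 2 ≤ E → 12 * ((m : ℝ) + 1) ^ 2 ≤ Real.exp g →
  (∀ k ≤ m, (c k : ℝ) ≤ mu ^ k * Real.exp g) → BadLe m E g →
  (∃ k ≤ m, mu ^ k * Real.exp (-(4 * g)) < (far k (E - 1) : ℝ)) →
  ∃ j ≤ m, mu ^ j * Real.exp (-(7 * g)) ≤ (#(brr j (E - 1) (12 * E)) : ℝ)

/-- BLK2 -/
def S_BLK2 : Prop := ∀ (j s R : ℕ) (δ : ℝ), 0 < δ → mu ^ j * δ ≤ (#(brr j s R) : ℝ) →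
  ∃ h : ℕ, 2 * s ≤ h ∧ h ≤ 2 * R ∧ ∃ B : Finset (List St),
    (∀ w ∈ B, w.length = 2 * j ∧ Br w ∧ disp w = ax 0 (h : ℤ) ∧
      ∀ i ≤ w.length, ∀ d, |pos w i d| ≤ 2 * (R : ℤ)) ∧
    mu ^ (2 * j) * (δ / (2 * (j : ℝ) + 1) ^ 3) ^ 2 ≤ (#B : ℝ)

/-! ### ladders of blocks -/

/-- a ladder of blocks with the levels `0, …, I`: the blocks of level `l` are bridges with the
displacement `h l • e₀` contained in the cube of radius `24 E l`; the cost of such a block is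
`r l * h l`; the blocks of level `0` are single steps -/
structure Lad (I : ℕ) (E : ℕ → ℕ) (r : ℕ → ℝ) (h len : ℕ → ℕ) (B : ℕ → Finset (List St)) :
    Prop where
  E_zero : E 0 = 1
  E_mono : ∀ l < I, E l ≤ E (l + 1)
  r_zero : r 0 = 2
  r_anti : ∀ l < I, r (l + 1) ≤ r l
  r_pos : ∀ l ≤ I, 0 < r l
  h_zero : h 0 = 1
  h_pos : ∀ l ≤ I, 1 ≤ h l
  h_le : ∀ l ≤ I, h l ≤ 24 * E l
  len_zero : len 0 = 1
  B_zero : B 0 = {[((0 : Fin 3), true)]}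
  mem : ∀ l ≤ I, ∀ w ∈ B l, w.length = len l ∧ Br w ∧ disp w = ax 0 (h l : ℤ) ∧
    ∀ i ≤ w.length, ∀ d, |pos w i d| ≤ 24 * (E l : ℤ)
  card : ∀ l ≤ I, mu ^ len l * Real.exp (-(r l * h l)) ≤ (#(B l) : ℝ)

/-- LAD -/
def S_LAD : Prop := ∀ (Q I : ℕ) (g : ℕ → ℝ), 2 ≤ Q → (∀ l, g l ≤ g (l + 1)) → 1 ≤ g 0 →
  (∀ l, g (l + 1) ≤ Q * g l) →
  (∀ l, 12 * ((Q : ℝ) ^ l + 1) ^ 2 ≤ Real.exp (g l)) →
  (∀ l, (2 * (Q : ℝ) ^ l + 1) ^ 3 ≤ Real.exp (g l)) →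
  (∀ l, ∀ k ≤ Q ^ l, (c k : ℝ) ≤ mu ^ k * Real.exp (g l)) →
  ∃ (E : ℕ → ℕ) (r : ℕ → ℝ) (h len : ℕ → ℕ) (B : ℕ → Finset (List St)), Lad I E r h len B ∧
    (∀ l < I, E (l + 1) ≤ 12 * Q * E l) ∧
    (∀ l ≤ I, r l * E l ≤ 16 * g l) ∧
    (∀ l < I, r l ≤ 288 * Q * r (l + 1)) ∧
    (∀ l ≤ I, len l ≤ 2 * Q ^ I) ∧
    (∀ l, 1 ≤ l → l ≤ I → BadLe (Q ^ l) (E l) (g l)) ∧
    (1 ≤ I → ∀ k ≤ Q ^ I, (far k (E I) : ℝ) ≤ mu ^ k * Real.exp (-(4 * g I)))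

/-! ### legs -/

/-- `y` is within distance `D` of `A` -/
def near (A : Finset V) (D : ℕ) (y : V) : Prop := ∃ a ∈ A, ∀ t, |y t - a t| ≤ (D : ℤ)

open Classical in
/-- the cost density of the leg of length `lam` in the direction `d` with start `a`, at the
distance `x` from the start -/
noncomputable def psi (A : Finset V) (I : ℕ) (E : ℕ → ℕ) (r : ℕ → ℝ) (a : V) (d : Fin 3)
    (lam x : ℕ) : ℝ :=
  r I + ∑ l ∈ range I, r l * ((if near A (48 * E (l + 1)) (a + ax d (x : ℤ)) then 1 else 0) +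
    (if x < 96 * E (l + 1) then 1 else 0) + (if lam < x + 96 * E (l + 1) then 1 else 0))

/-- the cost of a leg -/
noncomputable def Psi (A : Finset V) (I : ℕ) (E : ℕ → ℕ) (r : ℕ → ℝ) (a : V) (d : Fin 3)
    (lam : ℕ) : ℝ := ∑ x ∈ range lam, psi A I E r a d lam x

open Classical in
/-- number of the points `a + pos u j`, `1 ≤ j ≤ |u|`, in `A` -/
noncomputable def hits (A : Finset V) (a : V) (u : List St) : ℕ :=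
  #((Icc 1 u.length).filter fun j => a + pos u j ∈ A)

/-- words along a leg of length `lam` in the direction `d` -/
def LegW (d : Fin 3) (lam : ℕ) (u : List St) : Prop :=
  Saw u ∧ disp u = ax d (lam : ℤ) ∧
  (∀ i, 1 ≤ i → i ≤ u.length → 0 < pos u i d ∧ pos u i d ≤ (lam : ℤ)) ∧
  ∀ i ≤ u.length, ∀ t, t ≠ d →
    3 * |pos u i t| ≤ pos u i d ∧ 3 * |pos u i t| ≤ (lam : ℤ) - pos u i d

/-- LEG -/
def S_LEG : Prop := ∀ (I : ℕ) (E : ℕ → ℕ) (r : ℕ → ℝ) (h len : ℕ → ℕ)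
  (B : ℕ → Finset (List St)), Lad I E r h len B → ∀ Lm : ℕ, (∀ l ≤ I, len l ≤ Lm) →
  ∀ (A : Finset V) (a : V) (d : Fin 3) (lam : ℕ), ∃ (L : ℕ) (U : Finset (List St)),
    L ≤ lam * Lm ∧
    (∀ u ∈ U, u.length = L ∧ LegW d lam u ∧ (hits A a u : ℝ) ≤ Psi A I E r a d lam) ∧
    mu ^ L * Real.exp (-(Psi A I E r a d lam)) ≤ (#U : ℝ)

/-! ### staircases -/

/-- sum of the coordinates -/
def Sg (v : V) : ℤ := v 0 + v 1 + v 2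

/-- self-avoiding words along which `Sg` is strictly between its values at the two ends -/
def Mono (w : List St) : Prop := Saw w ∧ ∀ i ≤ w.length,
  0 ≤ Sg (pos w i) ∧ Sg (pos w i) ≤ Sg (disp w) ∧ (Sg (pos w i) = 0 → i = 0) ∧
    (Sg (pos w i) = Sg (disp w) → i = w.length)

/-- exit words: length `L`, displacement `z`, heights in `[lo, hi]`, cost and hits `≤ Y` -/
structure Ex (A : Finset V) (a : V) (lo hi : ℤ) (U : Finset (List St)) (L : ℕ) (z : V) (Y : ℝ) :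
    Prop where
  len : ∀ u ∈ U, u.length = L
  disp : ∀ u ∈ U, disp u = z
  mono : ∀ u ∈ U, Mono u
  ht : ∀ u ∈ U, ∀ i ≤ L, lo ≤ pos u i 0 ∧ pos u i 0 ≤ hi
  hit : ∀ u ∈ U, (hits A a u : ℝ) ≤ Y
  card : mu ^ L * Real.exp (-Y) ≤ (#U : ℝ)

/-- APP -/
def S_APP : Prop := ∀ (A : Finset V) (a : V) (lo hi lo₁ hi₁ lo₂ hi₂ : ℤ)
  (U₁ U₂ : Finset (List St)) (L₁ L₂ : ℕ) (z₁ z₂ : V) (Y₁ Y₂ : ℝ),
  Ex A a lo₁ hi₁ U₁ L₁ z₁ Y₁ → Ex A (a + z₁) lo₂ hi₂ U₂ L₂ z₂ Y₂ →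
  lo ≤ lo₁ → lo ≤ z₁ 0 + lo₂ → hi₁ ≤ hi → z₁ 0 + hi₂ ≤ hi →
  ∃ U : Finset (List St), Ex A a lo hi U (L₁ + L₂) (z₁ + z₂) (Y₁ + Y₂)

/-- LEGM: leg words are monotone -/
def S_LEGM : Prop := ∀ (d : Fin 3) (lam : ℕ) (u : List St), LegW d lam u → Mono u

/-- the cost of the three legs with the lengths `u 0, u 1, u 2` in the directions `0, 1, 2` -/
noncomputable def stc (A : Finset V) (I : ℕ) (E : ℕ → ℕ) (r : ℕ → ℝ) (a : V)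
    (u : Fin 3 → ℕ) : ℝ :=
  Psi A I E r a 0 (u 0) + Psi A I E r (a + ax 0 (u 0 : ℤ)) 1 (u 1) +
    Psi A I E r (a + ax 0 (u 0 : ℤ) + ax 1 (u 1 : ℤ)) 2 (u 2)

/-- the corner at the start of stage `i` -/
def cor (u : ℕ → Fin 3 → ℕ) (i : ℕ) : V := fun t => ∑ k ∈ range i, (u k t : ℤ)

/-- STAIR -/
def S_STAIR : Prop := ∀ (I : ℕ) (E : ℕ → ℕ) (r : ℕ → ℝ) (h len : ℕ → ℕ)
  (B : ℕ → Finset (List St)), Lad I E r h len B → ∀ Lm : ℕ, (∀ l ≤ I, len l ≤ Lm) →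
  ∀ (A : Finset V) (R : ℕ → ℕ) (F : ℕ) (u : ℕ → Fin 3 → ℕ),
  (∀ i ≤ I, 1 ≤ R i) → (∀ i < I, R i ≤ R (i + 1)) → R I ≤ F →
  (∀ i ≤ I, ∀ d, R i ≤ u i d ∧ u i d < 2 * R i) →
  ∃ (L : ℕ) (U : Finset (List St)) (z : V), L ≤ (6 * (I + 1) * R I + F) * Lm ∧ (F : ℤ) ≤ z 0 ∧
    Ex A 0 0 (z 0) U L z
      (∑ i ∈ range (I + 1), stc A I E r (cor u i) (u i) + Psi A I E r (cor u (I + 1)) 0 F)

/-- the numerical hypotheses for the exit path -/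
structure Num (I : ℕ) (E : ℕ → ℕ) (r : ℕ → ℝ) (A : Finset V) (Vl : ℕ → ℝ) (R : ℕ → ℕ) (F : ℕ)
    (Y : ℝ) : Prop where
  R_pos : ∀ i ≤ I, 1 ≤ R i
  R_mono : ∀ i < I, R i ≤ R (i + 1)
  RF : R I ≤ F
  rR : ∀ i ≤ I, r i * R i ≤ Y
  rF : r I * F ≤ Y
  taper : ∀ l < I, 192 * r l * E (l + 1) ≤ Y
  vol : ∀ l < I, ∃ N : Finset V, (∀ y, near A (48 * E (l + 1)) y → y ∈ N) ∧ (#N : ℝ) ≤ Vl l
  avg : ∀ l i, l ≤ i → i < I → r l * (2 * R (i + 1)) * Vl l ≤ Y * (R i : ℝ) ^ 3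
  avgF : ∀ l < I, r l * F * Vl l ≤ Y * (R I : ℝ) ^ 3

/-- AVG -/
def S_AVG : Prop := ∀ (I : ℕ) (E : ℕ → ℕ) (r : ℕ → ℝ), (∀ l < I, r (l + 1) ≤ r l) →
  (∀ l ≤ I, 0 < r l) → ∀ (A : Finset V) (Vl : ℕ → ℝ) (R : ℕ → ℕ) (F : ℕ) (Y : ℝ),
  Num I E r A Vl R F Y →
  ∃ u : ℕ → Fin 3 → ℕ, (∀ i ≤ I, ∀ d, R i ≤ u i d ∧ u i d < 2 * R i) ∧
    ∑ i ∈ range (I + 1), stc A I E r (cor u i) (u i) + Psi A I E r (cor u (I + 1)) 0 F ≤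
      14 * ((I : ℝ) + 1) ^ 2 * Y

/-! ### counting -/

/-- COUNT -/
def S_COUNT : Prop := ∀ (n Lx k : ℕ) (Y : ℝ) (S : Finset (List St)), (∀ w ∈ S, w.length = n) →
  (∀ w ∈ S, ∃ L ≤ Lx, ∃ U : Finset (List St),
    (∀ u ∈ U, u.length = L ∧ BrL (w ++ u) ∧ K (w ++ u) ≤ k) ∧
    mu ^ L * Real.exp (-Y) ≤ (#U : ℝ)) →
  (#S : ℝ) ≤ mu ^ n * Real.exp Y * ((Lx : ℝ) + 1) * (37 * ((n : ℝ) + Lx + 1) ^ 4) ^ k

/-- HLE: half-space walks of height at most the scale `E I` -/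
def S_HLE : Prop := ∀ (Q I N : ℕ) (g : ℕ → ℝ), 2 ≤ Q → 1 ≤ I → 1 ≤ N → 1 ≤ g 0 →
  (∀ l, g l ≤ g (l + 1)) →
  ∀ (E : ℕ → ℕ) (r : ℕ → ℝ) (h len : ℕ → ℕ) (B : ℕ → Finset (List St)), Lad I E r h len B →
    (∀ l, 1 ≤ l → l ≤ I → BadLe (Q ^ l) (E l) (g l)) →
  ∀ Lm : ℕ, (∀ l ≤ I, len l ≤ Lm) →
  ∀ (R : ℕ → ℕ) (F : ℕ) (Y : ℝ), (∀ i ≤ I, 1 ≤ R i) → (∀ i < I, R i ≤ R (i + 1)) → R I ≤ F →
    E I ≤ F → (∀ i ≤ I, r i * R i ≤ Y) → r I * F ≤ Y → (∀ l < I, 192 * r l * E (l + 1) ≤ Y) →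
    (∀ l i, l ≤ i → i < I → r l * (2 * R (i + 1)) *
      ((2 * (N / Q ^ (l + 1) : ℕ) + 2) * (99 * (E (l + 1) : ℝ)) ^ 3) ≤ Y * (R i : ℝ) ^ 3) →
    (∀ l < I, r l * F *
      ((2 * (N / Q ^ (l + 1) : ℕ) + 2) * (99 * (E (l + 1) : ℝ)) ^ 3) ≤ Y * (R I : ℝ) ^ 3) →
  ∀ n ≤ N, (hle n (E I) : ℝ) ≤ mu ^ n * (I + Real.exp (14 * ((I : ℝ) + 1) ^ 2 * Y) *
    (((6 * (I + 1) * R I + F) * Lm : ℕ) + 1) *
    (37 * ((n : ℝ) + ((6 * (I + 1) * R I + F) * Lm : ℕ) + 1) ^ 4) ^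
      ⌊14 * ((I : ℝ) + 1) ^ 2 * Y⌋₊)

/-! ### exponents -/

/-- `c_n ≤ μ^n exp(K n^x)` for some `K` -/
def PP (x : ℝ) : Prop := ∃ K : ℝ, ∀ n : ℕ, (c n : ℝ) ≤ mu ^ n * Real.exp (K * (n : ℝ) ^ x)

/-- the bound in polynomial form -/
def Poly (M y : ℕ) : Prop := ∃ C : ℝ, ∀ Q : ℕ, 2 ≤ Q → ∀ n ≤ Q ^ M,
  (c n : ℝ) ≤ mu ^ n * Real.exp (C * (Q : ℝ) ^ (y + 5))

/-- STEP: one step of the bootstrap -/
def S_STEP : Prop := ∀ x : ℝ, 1 / 3 ≤ x → x ≤ 1 / 2 → PP x → ∀ M y : ℕ, 1 ≤ y → 2 * y ≤ M →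
  3 * x * M ≤ (2 + 3 * x) * y → Poly M y

/-- ITER: the iteration -/
def S_ITER : Prop := S_STEP → PP (1 / 2) → ∀ ε : ℝ, 0 < ε → PP (1 / 3 + ε)

end Pool.Agent.W325.S3
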